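import Mathlib.Algebra.Order.Archimedean.Real.Basic
import Pool.Agent.MP_96f5a9_co.h16.IISpec

/-!
The protected gain.
-/

set_option autoImplicit false

namespace Pool.Agent.MP_96f5a9_co.H80

open Finset Function H51 H16 H93 H36

variable {ι : Type} [Fintype ι] [DecidableEq ι] {g : ι → ℕ} {T : Finset (ι → ℕ)} {m M s R R1 : ℕ}

/-- Packing at the protected parents. -/
lemma St.pack (h : St g T m M s R R1) (hI : 15 * Fintype.card ι ≤ 16 * (Nr g s R).card)
    (hD : ∀ y ∈ T, 4 * dp (Nr g s R) y ≤ Fintype.card ι) {b : ℕ} (hb : 256 ≤ b)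
    (hk : 32 * (T.filter fun z => ¬ Gd g M m (Nr g s R) b z).card ≤ m) :
    b * b * m ≤ 2 ^ 16 * (Fintype.card ι * ∑ i, Pd g T M m s R1 i) := by
  have e0 := h.hm
  have e1 := h.hR
  have e2 := h.hR1
  have e3 := h.hms
  obtain ⟨a, c, a1, a2, a3⟩ : ∃ a c, c ≤ m ∧ m ≤ 16 * (c - a) ∧
      ∀ x, m ≤ x → a + s ≤ x + R → x < c + s + R → (m ≤ x ∧ 4 * x < 7 * m) ∨ 2 * m ≤ x := by
    by_cases c : 2 * s < 3 * m
    · exact ⟨0, m / 8, by omega, by omega, fun x _ _ _ => by omega⟩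
    · exact ⟨m - m / 8, m, le_rfl, by omega, fun x _ _ _ => by omega⟩
  have h1 := h.win b a c a1
  set Y := T.filter fun y => m ≤ M - wt g y ∧ a + s ≤ M - wt g y + R ∧ M - wt g y < c + s + R
    with hY
  have h2 := soft_packing g T Y m (by omega) h.hinj (fun j => if j ∈ Nr g s R then 1 else 0)
    (filter_subset _ _)
  have h3 : ∑ k, (Y.filter fun t => t + Pi.single k (if k ∈ Nr g s R then 1 else 0) ∉ T).card ≤
      ∑ i, Pd g T M m s R1 i := by
    refine sum_le_sum fun i _ => card_le_card fun y hy => ?_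
    obtain ⟨b1, b2⟩ := mem_filter.1 hy
    obtain ⟨b3, b4, b5, b6⟩ := mem_filter.1 b1
    by_cases c : i ∈ Nr g s R
    · rw [if_pos c] at b2
      refine mem_filter.2 ⟨b3, b2, Or.inl ⟨?_, a3 _ b4 b5 b6⟩⟩
      have := (mem_filter.1 c).2
      omega
    · rw [if_neg c, Pi.single_zero, add_zero] at b2
      exact absurd b3 b2
  have h4 : ∑ _y ∈ Y, Fintype.card ι ≤
      2 * ∑ j, (Y.filter fun t => t j < if j ∈ Nr g s R then 1 else 0).card := by
    simp only [card_filter]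
    rw [sum_comm, mul_sum]
    refine sum_le_sum fun y hy => ?_
    have b1 := hD y (mem_filter.1 hy).1
    have b2 : (Nr g s R).card ≤ dp (Nr g s R) y +
        ∑ j ∈ Nr g s R, if y j < (if j ∈ Nr g s R then 1 else 0) then 1 else 0 := by
      rw [card_eq_sum_ones, dp, ← sum_add_distrib]
      refine sum_le_sum fun j hj => ?_
      rw [if_pos hj]
      split_ifs <;> omega
    have b3 : ∑ j ∈ Nr g s R, (if y j < (if j ∈ Nr g s R then 1 else 0) then 1 else 0) ≤
        ∑ j, if y j < (if j ∈ Nr g s R then 1 else 0) then 1 else 0 :=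
      sum_le_sum_of_subset (subset_univ _)
    omega
  have h3' := Nat.mul_le_mul_left (m * Fintype.card ι) h3
  rw [sum_const, smul_eq_mul] at h4
  generalize ∑ j, (Y.filter fun t => t j < if j ∈ Nr g s R then 1 else 0).card = Z at *
  generalize ∑ i, Pd g T M m s R1 i = D at *
  generalize Fintype.card ι = p at *
  have b1 : b * m ≤ 128 * Z := by
    linarith only [h1, h4, Nat.mul_le_mul_left b a2, Nat.mul_le_mul_left b hk]
  have b2 : 2 * m ≤ Z := by linarith only [b1, Nat.mul_le_mul_right m hb]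
  have b3 : Z * Z ≤ 4 * (m * p * D) := by
    linarith only [h2, h3', Nat.mul_le_mul_left Z b2]
  refine Nat.le_of_mul_le_mul_left ?_ (show 0 < m by omega)
  linarith only [Nat.mul_le_mul b1 b1, b3]

/-- The spread of the generators is paid by the protected gain. -/
lemma St.spread (h : St g T m M s R R1) (hI : 15 * Fintype.card ι ≤ 16 * (Nr g s R).card)
    (hs1 : Fintype.card ι ≤ 2 * (univ.filter fun i => g i ≤ s).card)
    (hs2 : Fintype.card ι ≤ 2 * (univ.filter fun i => s ≤ g i).card) (b : ℕ) :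
    b * ∑ i ∈ univ.filter (fun i => R < 128 * ds g s m i), ds g s m i ≤
      2 ^ 29 * (Fintype.card ι * (Gam g T M m (Nr g s R) +
      ∑ i, Pd g T M m s R1 i + m + b * (T.filter fun z => ¬ Gd g M m (Nr g s R) b z).card +
      ∑ z ∈ Nt g T M m, dp (univ.filter fun i => s ≤ 2 * g i) z)) := by
  have e0 := h.hm
  have e1 := h.hR
  have e2 := h.hR1
  have e3 := h.hms
  set Sh := univ.filter fun i => s + 4 * R ≤ g i ∧ s < g i ∧ 2 * g i ≤ 2 * s + m ∧
    (g i ≤ s + R1 → 3 * m ≤ 2 * s) with hSh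
  set U := univ.filter fun i => s + (R / 128 + 1) ≤ g i ∧ g i ≤ s + 4 * R with hU
  set B := univ.filter fun i => s ≤ g i + 4 * R ∧ g i + (R / 128 + 1) ≤ s with hB
  have h1 := h.shells b Sh fun i hi => (mem_filter.1 hi).2
  have hc : ∀ P : Finset ι, Fintype.card ι ≤ 2 * P.card →
      Fintype.card ι ≤ 4 * (P ∩ Nr g s R).card := fun P hP => by
    have := card_union_add_card_inter P (Nr g s R)
    have := card_le_univ (P ∪ Nr g s R)
    omega
  have h2 := h.near b s (univ.filter (fun i => g i ≤ s) ∩ Nr g s R) U (fun i hi => by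
    have := (mem_filter.1 (mem_inter.1 hi).1).2
    have := (mem_filter.1 (mem_inter.1 hi).2).2
    omega) (fun i hi => by have := (mem_filter.1 hi).2; omega) e3
  have h3 : B.card * (univ.filter (fun i => s ≤ g i) ∩ Nr g s R).card * (b * (R / 128 + 1)) ≤
      2 ^ 16 * (Fintype.card ι * (Fintype.card ι *
      (∑ i, Pd g T M m s R1 i + m + b * (T.filter fun z => ¬ Gd g M m (Nr g s R) b z).card +
      ∑ z ∈ Nt g T M m, dp (univ.filter fun i => s ≤ 2 * g i) z))) := by
    rcases B.eq_empty_or_nonempty with c | ⟨j, hj⟩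
    · rw [c, card_empty, zero_mul, zero_mul]; exact Nat.zero_le _
    have := (mem_filter.1 hj).2
    have := h.hg j
    exact h.near b (s - (R / 128 + 1)) B _ (fun i hi => by have := (mem_filter.1 hi).2; omega)
      (fun i hi => by
        have := (mem_filter.1 (mem_inter.1 hi).1).2
        have := (mem_filter.1 (mem_inter.1 hi).2).2
        omega) (by omega)
  have h4 : ∑ i ∈ univ.filter (fun i => R < 128 * ds g s m i), b * ds g s m i ≤
      ∑ i, ((8 * (Fintype.card ι * Pd g T M m s R1 i) + 8 * Gam g T M m (Nr g s R) +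
        4 * (b * (T.filter fun z => ¬ Gd g M m (Nr g s R) b z).card)) +
        b * (if i ∈ Sh then ds g s m i else 0) +
        b * (512 * (R / 128 + 1)) * ((if i ∈ U then 1 else 0) + if i ∈ B then 1 else 0)) := by
    refine (sum_le_sum fun i hi => ?_).trans (sum_le_sum_of_subset (subset_univ _))
    have a1 := (mem_filter.1 hi).2
    have a2 : ds g s m i = min (g i - s + (s - g i)) m := rfl
    have a3 := h.hg i
    by_cases c1 : g i + 4 * R ≤ s
    · exact (h.lower b c1).trans ((Nat.le_add_right _ _).trans (Nat.le_add_right _ _))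
    by_cases c2 : i ∈ Sh
    · rw [if_pos c2]; omega
    by_cases c3 : i ∈ U ∨ i ∈ B
    · have a4 : ds g s m i ≤ 512 * (R / 128 + 1) := by
        rcases c3 with c | c <;> have := (mem_filter.1 c).2 <;> omega
      refine le_trans ((Nat.mul_le_mul_left b a4).trans (Nat.le_mul_of_pos_right _ ?_))
        (Nat.le_add_left _ _)
      rcases c3 with c | c <;> rw [if_pos c] <;> omega
    simp only [hSh, hU, hB, mem_filter, mem_univ, true_and] at c2 c3
    refine le_trans ?_ ((Nat.le_add_right _ _).trans (Nat.le_add_right _ _))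
    by_cases c4 : g i ≤ s + R1
    · have := h.over b 0 (i := i) (by omega) (by omega) fun x _ _ _ => by unfold Pr; omega
      omega
    · have := h.over b (m / 8) (i := i) (by omega) (by omega) fun x _ _ _ => by unfold Pr; omega
      omega
  have c1 := Nat.mul_le_mul_right (U.card * (b * (R / 128 + 1))) (hc _ hs1)
  have c2 := Nat.mul_le_mul_right (B.card * (b * (R / 128 + 1))) (hc _ hs2)
  have hp := h.hp
  generalize b * (T.filter fun z => ¬ Gd g M m (Nr g s R) b z).card = k at *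
  simp only [sum_add_distrib, ← mul_sum, sum_const, card_univ, smul_eq_mul, sum_ite_mem,
    univ_inter] at h4
  generalize ∑ z ∈ Nt g T M m, dp (univ.filter fun i => s ≤ 2 * g i) z = DN at *
  generalize ∑ i, Pd g T M m s R1 i = D at *
  generalize Gam g T M m (Nr g s R) = G at *
  generalize R / 128 + 1 = δ at *
  generalize Fintype.card ι = p at *
  have c3 : p * ((U.card + B.card) * (b * δ)) ≤ p * (2 ^ 19 * (p * (D + m + k + DN))) := by
    linarith only [c1, c2, h2, h3]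
  linarith only [Nat.le_of_mul_le_mul_left c3 hp, h1, h4, Nat.zero_le (p * G), Nat.zero_le (p * D),
    Nat.zero_le (p * m), Nat.zero_le (p * k), Nat.zero_le (p * DN)]

/-- The protected gain. -/
theorem gain2 (hm : 64 ≤ m) (hg : ∀ i, m ≤ g i) (hT : ∀ x ∈ T, ∀ y, y ≤ x → y ∈ T)
    (hcard : T.card = m) (hinj : ∀ x ∈ T, ∀ y ∈ T, wt g x ≡ wt g y [MOD m] → x = y)
    (hM : ∀ x ∈ T, wt g x ≤ M) (hp : 0 < Fintype.card ι)
    (hs1 : Fintype.card ι ≤ 2 * (univ.filter fun i => g i ≤ s).card)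
    (hs2 : Fintype.card ι ≤ 2 * (univ.filter fun i => s ≤ g i).card)
    (hR : 4 * R ≤ R1) (hR1 : 16 * R1 ≤ m) (hI : 15 * Fintype.card ι ≤ 16 * (Nr g s R).card)
    (hn : Fintype.card ι * ∑ t ∈ T, (M - wt g t) / m ≤ M) {c : ℕ}
    (hc : M ≤ c * (Fintype.card ι * m)) (hτ : 2 ^ 14 * (c + 1) * M ≤ Fintype.card ι * s) :
    s * (M * ∑ i ∈ univ.filter (fun i => R < 128 * ds g s m i), ds g s m i) + m * (M * M) ≤
      2 ^ 80 * (c + 1) ^ 3 * (Fintype.card ι * (s * s) *
        (Gam g T M m (Nr g s R) + ∑ i, Pd g T M m s R1 i + m)) := by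
  have hm0 : 0 < m := by omega
  have hms : m ≤ s := by
    obtain ⟨i, hi⟩ := card_pos.1 (show 0 < (univ.filter fun i => g i ≤ s).card by omega)
    exact (hg i).trans (mem_filter.1 hi).2
  have hs0 : 0 < s := by omega
  obtain ⟨κ, hκ⟩ : ∃ κ, κ = c + 1 := ⟨_, rfl⟩
  have hκ0 : 0 < κ := by omega
  rw [← hκ] at hτ ⊢
  have hτ' : 2 ^ 14 * M ≤ Fintype.card ι * s :=
    (Nat.mul_le_mul_right M (Nat.le_mul_of_pos_right _ hκ0)).trans hτ
  set J := univ.filter fun i => s ≤ 2 * g i with hJ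
  have j1 : ∀ t ∈ T, dp J t * s ≤ 2 * M := fun t ht => by
    refine le_trans ?_ (Nat.mul_le_mul_left 2 (hM t ht))
    rw [dp, sum_mul, wt, mul_sum]
    refine (sum_le_sum fun i hi => ?_).trans (sum_le_sum_of_subset (subset_univ _))
    linarith only [Nat.mul_le_mul_left (t i) (mem_filter.1 hi).2]
  have j2 : ∀ t ∈ T, 4 * dp J t ≤ Fintype.card ι := fun t ht =>
    Nat.le_of_mul_le_mul_right (by linarith only [j1 t ht, hτ', Nat.zero_le M]) hs0
  have h : St g T m M s R R1 := ⟨hm, hg, hT, hcard, hinj, hM, hms, hR, hR1,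
    fun y hy => le_trans (Nat.le_mul_of_pos_left _ (by norm_num)) (j2 y hy), hp⟩
  have j3 : Nr g s R ⊆ J := fun i hi => mem_filter.2 ⟨mem_univ _, h.nr i hi⟩
  obtain ⟨b, hb⟩ : ∃ b, b = M / (256 * (κ * s)) := ⟨_, rfl⟩
  have b1 : 256 * (κ * s) * b ≤ M := hb ▸ Nat.mul_div_le _ _
  have b2 : M < 256 * (κ * s) * (b + 1) := hb ▸ Nat.lt_mul_div_succ _ (by positivity)
  have h1 := h.spread hI hs1 hs2 b
  have h2 := fun hb hk => h.pack (b := b) hI (fun y hy =>
    (Nat.mul_le_mul_left 4 (dp_mono j3 y)).trans (j2 y hy)) hb hk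
  have h3 := fun hb => badG hm0 hg hT hcard hM hms (show R ≤ s by omega) (c := b) (κ := κ)
    (fun y hy => by
      have a1 : dp (Nr g s R)ᶜ y * m ≤ c * Fintype.card ι * m := by
        refine le_trans ?_ (((hM y hy).trans hc).trans_eq (mul_assoc _ _ _).symm)
        rw [dp, sum_mul]
        exact (sum_le_sum fun i _ => Nat.mul_le_mul_left _ (hg i)).trans
          (sum_le_sum_of_subset (subset_univ _))
      have a2 := Nat.le_of_mul_le_mul_right a1 hm0
      have a3 := card_le_univ (Nr g s R)ᶜ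
      rw [hκ]
      linarith only [a2, a3]) hb hκ0 (by linarith only [b1])
  have h4 := card_gam (g := g) (M := M) hm0 (Nr g s R) (Nt g T M m) T (filter_subset _ _)
    (fun y hy => not_lt.1 fun e => (mem_filter.1 hy).2 ((Nat.div_eq_zero_iff_lt hm0).2 e))
    fun _ _ _ _ e => e
  have h5 : (∑ z ∈ T, dp (Nr g s R) z) * s ≤ m * (2 * M) := by
    rw [sum_mul, ← hcard]
    exact sum_le_card_nsmul _ _ _ fun z hz => (Nat.mul_le_mul_right _ (dp_mono j3 z)).trans (j1 z hz)
  have h6 : (∑ z ∈ Nt g T M m, dp J z) * s ≤ (Nt g T M m).card * (2 * M) := by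
    rw [sum_mul]
    exact sum_le_card_nsmul _ _ _ fun z hz => j1 z (mem_filter.1 hz).1
  have h7 : ∑ i ∈ univ.filter (fun i => R < 128 * ds g s m i), ds g s m i ≤ Fintype.card ι * m :=
    (sum_le_sum_of_subset (subset_univ _)).trans
      (sum_le_card_nsmul _ _ _ fun i _ => min_le_right _ _)
  generalize (T.filter fun z => ¬ Gd g M m (Nr g s R) b z).card = k at *
  generalize ∑ z ∈ Nt g T M m, dp J z = DN at *
  generalize ∑ i, Pd g T M m s R1 i = D at *
  generalize Gam g T M m (Nr g s R) = G at *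
  generalize ∑ i ∈ univ.filter (fun i => R < 128 * ds g s m i), ds g s m i = E at *
  generalize ∑ t ∈ T, (M - wt g t) / m = n at *
  generalize (Nt g T M m).card = N at *
  generalize Fintype.card ι = p at *
  obtain ⟨Γ, hΓ⟩ : ∃ Γ, Γ = p * (s * s) * (G + D + m) := ⟨_, rfl⟩
  have z1 := Nat.zero_le (p * (s * s) * G)
  have z2 := Nat.zero_le (p * (s * s) * D)
  have z3 := Nat.zero_le (p * (s * s) * m)
  have z4 := Nat.zero_le (m * (M * M))
  have k1 : Γ ≤ κ * Γ := Nat.le_mul_of_pos_left _ hκ0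
  have k2 : κ * Γ ≤ κ * (κ * Γ) := Nat.mul_le_mul_left _ k1
  have k3 : κ * (κ * Γ) ≤ κ * (κ * (κ * Γ)) := Nat.mul_le_mul_left _ k2
  have t1 : ∀ r, M ≤ r * (κ * s) → 2 ^ 14 * (m * (M * M)) ≤ r * (p * (s * s) * m) := fun r e => by
    refine Nat.le_of_mul_le_mul_left ?_ hκ0
    linarith only [Nat.mul_le_mul_left m (Nat.mul_le_mul hτ e)]
  rw [← hΓ]
  rcases Nat.eq_zero_or_pos b with c0 | c0
  · rw [c0] at b2
    have a1 := t1 256 (by omega)
    have a2 := Nat.mul_le_mul_left s (Nat.mul_le_mul b2.le h7)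
    have a3 : κ * (p * (s * s) * m) ≤ κ * Γ := Nat.mul_le_mul_left _ (by linarith only [hΓ, z1, z2])
    linarith only [a1, a2, a3, k1, k2, k3, hΓ, z1, z2, z3, z4]
  have b3 : M ≤ 512 * b * (κ * s) := by linarith only [b2, Nat.mul_le_mul_left (κ * s) c0]
  have b4 : 256 * (b * s) ≤ M := by
    linarith only [b1, Nat.mul_le_mul_left (b * s) hκ0]
  have n1 : p * (s * N) ≤ s * G + 16 * (m * M) := by
    linarith only [Nat.mul_le_mul_left s h4, h5]
  have n2 : 2 ^ 14 * (M * (p * (s * N))) ≤ p * (s * s) * G + 2 ^ 18 * (m * (M * M)) := by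
    linarith only [Nat.mul_le_mul_left M n1, Nat.mul_le_mul_right (s * G) hτ']
  have n3 : 256 * (p * (s * s) * (b * k)) ≤ 257 * Γ + 49 * (m * (M * M)) := by
    have f1 := Nat.mul_le_mul_left (p * s) (h3 c0)
    have f2 := Nat.mul_le_mul_left m (Nat.mul_le_mul b4 hn)
    have f3 := Nat.mul_le_mul_right (p * (s * N)) b4
    have f4 := Nat.mul_le_mul_left (p * s * G) hms
    linarith only [f1, f2, f3, f4, n2, hΓ, z1, z2, z3]
  have n4 : p * (s * s) * DN ≤ Γ + 32 * (m * (M * M)) := by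
    linarith only [Nat.mul_le_mul_left (p * s) h6, n2, hΓ, z1, z2, z3]
  have t2 : m * (M * M) ≤ 2 ^ 34 * (κ * (κ * Γ)) := by
    by_cases c1 : 32 * k ≤ m
    · by_cases c2 : 256 ≤ b
      · have a1 := Nat.mul_le_mul_left (κ * κ * (s * s)) (h2 c2 c1)
        have a2 := Nat.mul_le_mul_left m (Nat.mul_le_mul b3 b3)
        have a3 : κ * (κ * (p * (s * s) * D)) ≤ κ * (κ * Γ) :=
          Nat.mul_le_mul_left _ (Nat.mul_le_mul_left _ (by linarith only [hΓ, z1, z3]))
        linarith only [a1, a2, a3]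
      · have a1 := t1 (2 ^ 17) (b3.trans (Nat.mul_le_mul_right _ (by omega)))
        linarith only [a1, k1, k2, hΓ, z1, z2, z3]
    · have a1 := t1 _ b3
      have a2 := Nat.mul_le_mul_left (p * (s * s) * b) (not_le.1 c1).le
      linarith only [a1, a2, n3, k1, k2, z4, Nat.zero_le Γ]
  have t3 : s * (s * (b * E)) ≤ 2 ^ 29 * (4 * Γ + 33 * (m * (M * M))) := by
    linarith only [Nat.mul_le_mul_left (s * s) h1, n3, n4, hΓ, z1, z2, z3, z4]
  have t4 := Nat.mul_le_mul_left κ t3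
  have t5 := Nat.mul_le_mul_left κ t2
  linarith only [Nat.mul_le_mul_left (s * E) b3, t4, t5, t2, k1, k2, k3,
    Nat.zero_le (κ * (κ * (κ * Γ)))]

/-- The protected gain for a real gain function. -/
theorem gain2_real (hm : 64 ≤ m) (hg : ∀ i, m ≤ g i) (hT : ∀ x ∈ T, ∀ y, y ≤ x → y ∈ T)
    (hcard : T.card = m) (hinj : ∀ x ∈ T, ∀ y ∈ T, wt g x ≡ wt g y [MOD m] → x = y)
    (hM : ∀ x ∈ T, wt g x ≤ M) (hp : 0 < Fintype.card ι) (hpm : Fintype.card ι ≤ m)
    (hs1 : Fintype.card ι ≤ 2 * (univ.filter fun i => g i ≤ s).card)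
    (hs2 : Fintype.card ι ≤ 2 * (univ.filter fun i => s ≤ g i).card)
    (hR : 4 * R ≤ R1) (hR1 : 16 * R1 ≤ m) (hI : 15 * Fintype.card ι ≤ 16 * (Nr g s R).card)
    (hE : Fintype.card ι * R ≤ 64 * (∑ i, ds g s m i + Fintype.card ι))
    (hn : Fintype.card ι * ∑ t ∈ T, (M - wt g t) / m ≤ M) {c : ℕ}
    (hc : M ≤ c * (Fintype.card ι * m)) (hτ : 2 ^ 14 * (c + 1) * M ≤ Fintype.card ι * s)
    (G : (ι → ℕ) → ℝ)
    (hG1 : ∀ y ∈ T, (((M - wt g y) / m * (Fintype.card ι - 8 * live T (Nr g s R) y) : ℕ) : ℝ) ≤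
      2 * G y)
    (hG2 : ∀ y ∈ T, ((univ.filter fun i => y + ee i ∉ T ∧ Pr m s R1 (M - wt g y) (g i)).card : ℝ) ≤
      16 * G y) :
    (s : ℝ) * (M * (∑ i, ds g s m i : ℕ)) + m * (M * M) ≤
      2 ^ 87 * (c + 1) ^ 3 * (Fintype.card ι * (s * s) * (∑ y ∈ T, G y + m)) := by
  have h1 := gain2 hm hg hT hcard hinj hM hp hs1 hs2 hR hR1 hI hn hc hτ
  have h2 : (Gam g T M m (Nr g s R) : ℝ) ≤ 2 * ∑ y ∈ T, G y := by
    rw [Gam, Nat.cast_sum, mul_sum]
    exact sum_le_sum hG1
  have h3 : ((∑ i, Pd g T M m s R1 i : ℕ) : ℝ) ≤ 16 * ∑ y ∈ T, G y := by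
    have : ∑ i, Pd g T M m s R1 i = ∑ y ∈ T,
        (univ.filter fun i => y + ee i ∉ T ∧ Pr m s R1 (M - wt g y) (g i)).card := by
      simp only [Pd, card_filter]
      exact sum_comm
    rw [this, Nat.cast_sum, mul_sum]
    exact sum_le_sum hG2
  have h4 := sum_filter_add_sum_filter_not univ (fun i => R < 128 * ds g s m i) (ds g s m)
  have h5 : 128 * ∑ i ∈ univ.filter (fun i => ¬ R < 128 * ds g s m i), ds g s m i ≤
      Fintype.card ι * R := by
    rw [mul_sum]
    exact (sum_le_card_nsmul _ _ _ fun i hi => not_lt.1 (mem_filter.1 hi).2).trans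
      (Nat.mul_le_mul_right _ (card_le_univ _))
  have h6 : M ≤ m * s := by
    have := Nat.mul_le_mul_right s hpm
    have := Nat.le_mul_of_pos_left M (show 0 < 2 ^ 14 * (c + 1) by positivity)
    omega
  have h7 : s * (M * ∑ i, ds g s m i) + m * (M * M) ≤ 4 * (2 ^ 80 * (c + 1) ^ 3 *
      (Fintype.card ι * (s * s) * (Gam g T M m (Nr g s R) + ∑ i, Pd g T M m s R1 i + m))) := by
    have a1 : ∑ i, ds g s m i ≤ 2 * ∑ i ∈ univ.filter (fun i => R < 128 * ds g s m i), ds g s m i +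
      Fintype.card ι := by omega
    have a2 : Fintype.card ι * (s * s) * m ≤ 2 ^ 80 * (c + 1) ^ 3 *
        (Fintype.card ι * (s * s) * (Gam g T M m (Nr g s R) + ∑ i, Pd g T M m s R1 i + m)) :=
      (Nat.mul_le_mul_left _ (Nat.le_add_left _ _)).trans (Nat.le_mul_of_pos_left _ (by positivity))
    linarith only [h1, a2, Nat.mul_le_mul_left (s * M) a1,
      Nat.mul_le_mul_left (s * Fintype.card ι) h6, Nat.zero_le (m * (M * M)),
      Nat.zero_le (Fintype.card ι * (s * s) * m)]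
  have h8 : ((Gam g T M m (Nr g s R) + ∑ i, Pd g T M m s R1 i + m : ℕ) : ℝ) ≤
      16 * (∑ y ∈ T, G y + m) + 2 * ∑ y ∈ T, G y := by
    have : (0 : ℝ) ≤ Gam g T M m (Nr g s R) := Nat.cast_nonneg _
    have : (0 : ℝ) ≤ m := Nat.cast_nonneg _
    rw [Nat.cast_add, Nat.cast_add]
    linarith
  have h9 : (0 : ℝ) ≤ ∑ y ∈ T, G y := by
    have : (0 : ℝ) ≤ Gam g T M m (Nr g s R) := Nat.cast_nonneg _
    linarith
  have h10 : (0 : ℝ) ≤ m := Nat.cast_nonneg _
  have h11 := (Nat.cast_le (α := ℝ)).2 h7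
  generalize Gam g T M m (Nr g s R) + ∑ i, Pd g T M m s R1 i + m = W at *
  generalize ∑ i, ds g s m i = E at *
  push_cast at h11
  refine h11.trans ?_
  calc _ ≤ 4 * (2 ^ 80 * ((c : ℝ) + 1) ^ 3 *
        (Fintype.card ι * (s * s) * (32 * (∑ y ∈ T, G y + m)))) := by
        have : (W : ℝ) ≤ 32 * (∑ y ∈ T, G y + m) := by linarith
        norm_num only
        gcongr
    _ = _ := by ring

end Pool.Agent.MP_96f5a9_co.H80
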