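import Mathlib.Algebra.BigOperators.Field
import Pool.Agent.MP_96f5a9_co.h80.G2
import Pool.Agent.MP_96f5a9_co.h59a.Basic
import Pool.Agent.MP_96f5a9_co.h16.IISpec

-- ======== part 0: formerly Pool.Agent.MP_96f5a9_co.h80.II1
section MrgPart0

/-!
Almost equal generators: the flow certificate at one point.
-/

set_option autoImplicit false

namespace Pool.Agent.MP_96f5a9_co.H80

open Finset Function H51 H16 H93 H36 WA

lemma fl_zero {m x : ℕ} (h : x < m) : fl m x = 0 := by simp [fl, Nat.div_eq_of_lt h]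

lemma fl_le (m x : ℕ) : fl m x ≤ x := by
  unfold fl
  exact_mod_cast Nat.mul_div_le x m

lemma fl_add_mod (m x : ℕ) : fl m x + (x % m : ℕ) = x := by
  unfold fl
  exact_mod_cast Nat.div_add_mod x m

lemma lt_fl {m : ℕ} (hm : 0 < m) (x : ℕ) : (x : ℝ) ≤ fl m x + m := by
  have h1 := fl_add_mod m x
  have h2 : ((x % m : ℕ) : ℝ) ≤ m := Nat.cast_le.2 (Nat.mod_lt x hm).le
  linarith

lemma le_fl {m x : ℕ} (hm : 0 < m) (h : m ≤ x) : (m : ℝ) ≤ fl m x := by
  unfold fl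
  exact_mod_cast Nat.le_mul_of_pos_right m (Nat.div_pos h hm)

lemma two_le_fl {m x : ℕ} (hm : 0 < m) (h : 2 * m ≤ x) : 2 * (m : ℝ) ≤ fl m x := by
  unfold fl
  have : 2 * m ≤ m * (x / m) := by
    rw [mul_comm 2]
    exact Nat.mul_le_mul_left _ ((Nat.le_div_iff_mul_le hm).2 h)
  exact_mod_cast this

lemma fl_add {m : ℕ} (hm : 0 < m) (x v : ℕ) : fl m (x + v) = fl m x + fl m (x % m + v) := by
  unfold fl
  rw [← mul_add, ← Nat.cast_add]
  congr 2
  conv_lhs => rw [← Nat.div_add_mod x m, add_assoc, Nat.mul_add_div hm]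

variable {ι : Type} [Fintype ι] [DecidableEq ι]

/-- The common flow of the central generators. -/
noncomputable def BB (m : ℕ) (C : Finset ι) (Fr : ι → ℕ → ℝ) (x : ℕ) : ℝ :=
  fl m x + (Cᶜ.card * fl m x - ∑ i ∈ Cᶜ, Fr i x) / C.card

/-- The flow, in the unit of the depth. -/
noncomputable def Fl (g : ι → ℕ) (m M : ℕ) (C : Finset ι) (gb : ℝ) (Fr : ι → ℕ → ℝ) (β : ℕ → ℝ)
    (h : (ι → ℕ) → ι → ℝ) (y : ι → ℕ) (i : ι) : ℝ :=
  if i ∈ C then g i / gb * BB m C Fr (M - wt g y) + β (M - wt g y) * h y i else Fr i (M - wt g y)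

/-- The data of the certificate. -/
structure Ce (g : ι → ℕ) (T : Finset (ι → ℕ)) (m M s R L : ℕ) (C : Finset ι) (gb ε ξ N : ℝ)
    (q r qh : ℕ → ℝ) (Fr : ι → ℕ → ℝ) (β : ℕ → ℝ) (h : (ι → ℕ) → ι → ℝ) (er : ℕ → ℝ) : Prop where
  hg : ∀ i, m ≤ g i
  hM : ∀ x ∈ T, wt g x ≤ M
  ref : Ref m s R gb q
  rare : Rare g Cᶜ m s R gb C.card q Fr r qh
  core : ∀ k, k ∈ C ↔ g k ≤ s + R ∧ s ≤ g k + R
  sumg : ∑ k ∈ C, (g k : ℝ) = gb * C.card
  pos : 0 < C.card
  eps : (Cᶜ.card : ℝ) = ε * C.card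
  eps1 : ε ≤ 1 / 64
  xi : 2 * R / m + 8 * ε ≤ ξ
  xi1 : ξ ≤ 1 / 2
  hL : 4 * L ≤ m
  b0 : ∀ x < m, β x = 0
  b1 : ∀ x, 0 ≤ β x ∧ β x ≤ m * (1 - ξ)
  b2 : ∀ x v, m ≤ v → β (x + v) = β (x % m + v)
  b3 : ∀ x, x % m + L ≤ m → β x = 0
  h1 : ∀ y k, -1 ≤ h y k ∧ h y k ≤ 1
  h2 : ∀ y, ∑ k ∈ C, h y k ≤ 0
  hN : ∀ z ∈ T, (dp C z : ℝ) ≤ N
  cell : ∀ z ∈ T, ∀ l < m, (∑ k ∈ C, (z k : ℝ) * g k) * q l - er l ≤
    ∑ k ∈ C, (z k : ℝ) * (g k / gb * fl m (l + g k) + β (l + g k) * h (z - ee k) k)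

variable {g : ι → ℕ} {T : Finset (ι → ℕ)} {m M s R L : ℕ} {C : Finset ι} {gb ε ξ N : ℝ}
  {q r qh : ℕ → ℝ} {Fr : ι → ℕ → ℝ} {β : ℕ → ℝ} {h : (ι → ℕ) → ι → ℝ} {er : ℕ → ℝ}

namespace Ce

variable (c : Ce g T m M s R L C gb ε ξ N q r qh Fr β h er)
include c

lemma hm : 0 < m := by
  have := c.ref.R1
  have := c.ref.Rm
  omega

lemma hm' : (0 : ℝ) < m := Nat.cast_pos.2 c.hm

lemma hgb : 0 < gb := c.hm'.trans_le c.ref.gbm

lemma hC : (0 : ℝ) < C.card := Nat.cast_pos.2 c.pos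

lemma eps0 : 0 ≤ ε := by
  have h1 : 0 ≤ ε * C.card := c.eps ▸ Nat.cast_nonneg _
  exact nonneg_of_mul_nonneg_left h1 c.hC

lemma ratio {k : ι} (hk : k ∈ C) : 1 - 2 * R / m ≤ g k / gb ∧ g k / gb ≤ 9 / 8 := by
  obtain ⟨a1, a2⟩ := (c.core k).1 hk
  have a3 : (g k : ℝ) ≤ s + R := by exact_mod_cast a1
  have a4 : (s : ℝ) ≤ g k + R := by exact_mod_cast a2
  have a5 : 16 * (R : ℝ) ≤ m := by exact_mod_cast c.ref.Rm
  have a6 := c.ref.gb1
  have a7 := c.ref.gb2
  have a8 := c.ref.gbm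
  have a9 : 2 * (R : ℝ) ≤ 2 * R / m * gb := by
    rw [div_mul_eq_mul_div, le_div_iff₀ c.hm']
    exact mul_le_mul_of_nonneg_left a8 (by positivity)
  rw [le_div_iff₀ c.hgb, div_le_iff₀ c.hgb]
  constructor <;> linarith

lemma avg (u : ι → ℝ) (a b : ℝ) (hu : ∀ i ∈ Cᶜ, u i ≤ a + b) :
    -(ε * b) ≤ (Cᶜ.card * a - ∑ i ∈ Cᶜ, u i) / C.card := by
  have h1 := sum_le_card_nsmul _ _ _ hu
  rw [nsmul_eq_mul] at h1
  rw [le_div_iff₀ c.hC]
  have := c.eps
  calc -(ε * b) * C.card = -(Cᶜ.card * b) := by rw [this]; ring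
    _ ≤ _ := by linarith

lemma fr_le {i : ι} (hi : i ∈ Cᶜ) (x : ℕ) : Fr i x ≤ 9 * fl m x := by
  by_cases hx : x < m
  · rw [c.rare.zero i hi x hx, fl_zero hx]; norm_num
  have a1 := (abs_le.1 (c.rare.near i hi x (not_lt.1 hx))).2
  have a2 := lt_fl c.hm x
  have a3 := le_fl c.hm (not_lt.1 hx)
  have a4 : 3 * (m : ℝ) * x / gb ≤ 3 * x := by
    rw [div_le_iff₀ c.hgb]
    have := mul_le_mul_of_nonneg_left c.ref.gbm (Nat.cast_nonneg (α := ℝ) x)
    linarith
  linarith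

lemma bb (x : ℕ) : (1 - 8 * ε) * fl m x ≤ BB m C Fr x ∧ BB m C Fr x ≤ (1 + ε) * fl m x := by
  have a1 := c.avg (fun i => Fr i x) (fl m x) (8 * fl m x) fun i hi => by
    have := c.fr_le hi x
    linarith
  have a2 : (Cᶜ.card * fl m x - ∑ i ∈ Cᶜ, Fr i x) / C.card ≤ ε * fl m x := by
    rw [div_le_iff₀ c.hC, c.eps]
    have : 0 ≤ ∑ i ∈ Cᶜ, Fr i x := sum_nonneg fun i hi => c.rare.nonneg i hi x
    linarith
  unfold BB
  constructor <;> linarith

lemma fl_core {y : ι → ℕ} {k : ι} (hk : k ∈ C) :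
    (1 - ξ) * fl m (M - wt g y) - β (M - wt g y) ≤ Fl g m M C gb Fr β h y k ∧
      Fl g m M C gb Fr β h y k ≤ 3 * fl m (M - wt g y) := by
  rw [Fl, if_pos hk]
  generalize M - wt g y = x
  obtain ⟨a1, a2⟩ := c.ratio hk
  obtain ⟨a3, a4⟩ := c.bb x
  obtain ⟨a5, a6⟩ := c.b1 x
  obtain ⟨a7, a8⟩ := c.h1 y k
  have e0 := c.eps0
  have e1 := c.eps1
  have e2 := c.xi
  have e3 := c.xi1
  have e4 : (0 : ℝ) ≤ 2 * R / m := by positivity
  have f0 : 0 ≤ fl m x := by unfold fl; positivity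
  have f1 : β x ≤ fl m x := by
    by_cases hx : x < m
    · rw [c.b0 x hx]; exact f0
    · have := le_fl c.hm (not_lt.1 hx)
      have := mul_nonneg c.hm'.le (show 0 ≤ ξ by linarith)
      linarith
  have f2 : 0 ≤ (1 - 8 * ε) * fl m x := mul_nonneg (by linarith) f0
  have f3 := mul_le_mul a1 a3 f2 (by linarith)
  have f4 := mul_le_mul a2 a4 (by linarith) (by norm_num)
  have f5 := mul_le_mul_of_nonneg_left a7 a5
  have f6 := mul_le_mul_of_nonneg_left a8 a5
  have f7 := mul_le_mul_of_nonneg_right e2 f0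
  have f8 := mul_nonneg (mul_nonneg e4 e0) f0
  have f9 := mul_le_mul_of_nonneg_right e1 f0
  constructor <;> linarith

lemma fl_nonneg (y : ι → ℕ) (i : ι) : 0 ≤ Fl g m M C gb Fr β h y i := by
  by_cases hi : i ∈ C
  · refine le_trans ?_ (c.fl_core hi).1
    by_cases hx : M - wt g y < m
    · rw [c.b0 _ hx, fl_zero hx]; norm_num
    · have := mul_le_mul_of_nonneg_left (le_fl c.hm (not_lt.1 hx))
        (show 0 ≤ 1 - ξ by linarith [c.xi1])
      linarith [(c.b1 (M - wt g y)).2]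
  · rw [Fl, if_neg hi]
    exact c.rare.nonneg i (mem_compl.2 hi) _

lemma fl_prot {y : ι → ℕ} {i : ι} (hp : Pr m s R (M - wt g y) (g i)) :
    (m : ℝ) ≤ 16 * Fl g m M C gb Fr β h y i := by
  have e3 := c.xi1
  have e4 := c.hm'
  have e5 := mul_le_mul_of_nonneg_left e3 e4.le
  rcases hp with ⟨a1, a2⟩ | ⟨a1, a2⟩
  · have a3 := (c.fl_core (y := y) ((c.core i).2 a1)).1
    rcases a2 with a2 | a2
    · have := mul_le_mul_of_nonneg_left (le_fl c.hm a2.1) (show 0 ≤ 1 - ξ by linarith)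
      rw [c.b3 _ (by
        have := c.hL
        rw [Nat.mod_eq_sub_mod a2.1, Nat.mod_eq_of_lt (by omega)]
        omega)] at a3
      linarith
    · have := mul_le_mul_of_nonneg_left (two_le_fl c.hm a2) (show 0 ≤ 1 - ξ by linarith)
      linarith [(c.b1 (M - wt g y)).2]
  · have hi : i ∉ C := fun e => a1 ((c.core i).1 e)
    rw [Fl, if_neg hi]
    exact c.rare.prot i (mem_compl.2 hi) _ a2

lemma slk_nonneg (y : ι → ℕ) : 0 ≤ slk g M m (fun y i => Fl g m M C gb Fr β h y i / m) y := by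
  have a1 : ∑ i, Fl g m M C gb Fr β h y i = C.card * BB m C Fr (M - wt g y) +
      β (M - wt g y) * ∑ k ∈ C, h y k + ∑ i ∈ Cᶜ, Fr i (M - wt g y) := by
    unfold Fl
    rw [← sum_add_sum_compl C, sum_congr rfl fun i hi => if_pos hi,
      sum_congr rfl fun i (hi : i ∈ Cᶜ) => if_neg (mem_compl.1 hi), sum_add_distrib, ← sum_mul, ← sum_div,
      c.sumg, ← mul_sum, mul_div_cancel_left₀ _ c.hgb.ne']
  have a2 : (C.card : ℝ) + Cᶜ.card = Fintype.card ι := by exact_mod_cast card_add_card_compl C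
  have a3 := mul_nonpos_of_nonneg_of_nonpos (c.b1 (M - wt g y)).1 (c.h2 y)
  rw [slk, ← sum_div, a1, BB, mul_add, mul_div_cancel₀ _ c.hC.ne', sub_nonneg, div_le_iff₀ c.hm',
    ← a2, aa]
  unfold fl
  linarith

lemma ded_ge (y : ι → ℕ) : (∑ i ∈ univ.filter (fun i => y + ee i ∉ T), Fl g m M C gb Fr β h y i) / m ≤
    ded T (fun y i => Fl g m M C gb Fr β h y i / m) y := by
  rw [sum_div]
  refine sum_le_sum fun i _ => le_mul_of_one_le_left (div_nonneg (c.fl_nonneg y i) c.hm'.le) ?_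
  linarith [Nat.cast_nonneg (α := ℝ) (y i)]

lemma prot (y : ι → ℕ) :
    ((univ.filter fun i => y + ee i ∉ T ∧ Pr m s R (M - wt g y) (g i)).card : ℝ) ≤
      16 * (ded T (fun y i => Fl g m M C gb Fr β h y i / m) y +
        slk g M m (fun y i => Fl g m M C gb Fr β h y i / m) y) := by
  have a1 : ((univ.filter fun i => y + ee i ∉ T ∧ Pr m s R (M - wt g y) (g i)).card : ℝ) * m ≤
      16 * ∑ i ∈ univ.filter (fun i => y + ee i ∉ T), Fl g m M C gb Fr β h y i := by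
    rw [mul_sum, ← nsmul_eq_mul, ← sum_const]
    refine (sum_le_sum fun i hi => c.fl_prot (mem_filter.1 hi).2.2).trans
      (sum_le_sum_of_subset_of_nonneg (fun i hi => mem_filter.2 ⟨mem_univ _, (mem_filter.1 hi).2.1⟩)
        fun i _ _ => ?_)
    linarith [c.fl_nonneg y i]
  have a2 := (div_le_iff₀ c.hm').1 (c.ded_ge y)
  have a3 := c.slk_nonneg y
  have a4 := le_of_mul_le_mul_right (a1.trans (by linarith : _ ≤ 16 *
    ded T (fun y i => Fl g m M C gb Fr β h y i / m) y * m)) c.hm'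
  linarith

lemma gi (I : Finset ι) (hI : I ⊆ C) (hI' : 15 * Fintype.card ι ≤ 16 * I.card) (y : ι → ℕ) :
    (((M - wt g y) / m * (Fintype.card ι - 8 * live T I y) : ℕ) : ℝ) ≤
      2 * (ded T (fun y i => Fl g m M C gb Fr β h y i / m) y +
        slk g M m (fun y i => Fl g m M C gb Fr β h y i / m) y) := by
  have a2 := c.ded_ge y
  have a3 := c.slk_nonneg y
  by_cases hl : Fintype.card ι ≤ 8 * live T I y
  · have : 0 ≤ (∑ i ∈ univ.filter (fun i => y + ee i ∉ T), Fl g m M C gb Fr β h y i) / m :=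
      div_nonneg (sum_nonneg fun i _ => c.fl_nonneg y i) c.hm'.le
    rw [Nat.sub_eq_zero_of_le hl, mul_zero, Nat.cast_zero]
    linarith
  have f0 : 0 ≤ fl m (M - wt g y) := by unfold fl; positivity
  have a4 : ∑ i ∈ univ.filter (fun i => ¬ y + ee i ∉ T), Fl g m M C gb Fr β h y i ≤
      ∑ i, ((if i ∈ I.filter (fun i => y + ee i ∈ T) then 3 * fl m (M - wt g y) else 0) +
        (if i ∈ Iᶜ then 3 * fl m (M - wt g y) else 0) +
        if i ∈ Cᶜ then 9 * fl m (M - wt g y) else 0) := by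
    rw [sum_filter]
    refine sum_le_sum fun i _ => ?_
    by_cases b1 : i ∈ C
    · have := (c.fl_core (y := y) b1).2
      by_cases b2 : i ∈ I <;> by_cases b3 : y + ee i ∈ T <;> simp [b1, b2, b3] <;> linarith
    · have b2 : i ∉ I := fun e => b1 (hI e)
      have := c.fr_le (mem_compl.2 b1) (M - wt g y)
      by_cases b3 : y + ee i ∈ T <;> simp [Fl, b1, b2, b3] <;> linarith
  simp only [sum_add_distrib, sum_ite_mem, univ_inter, sum_const, nsmul_eq_mul] at a4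
  have a5 := sum_filter_add_sum_filter_not univ (fun i => y + ee i ∉ T)
    fun i => Fl g m M C gb Fr β h y i
  have a6 : 16 * (Iᶜ.card : ℝ) ≤ Fintype.card ι := by
    have := card_add_card_compl I
    exact_mod_cast (by omega : 16 * Iᶜ.card ≤ Fintype.card ι)
  have a7 : 64 * (Cᶜ.card : ℝ) ≤ Fintype.card ι := by
    have b1 : (C.card : ℝ) ≤ Fintype.card ι := Nat.cast_le.2 (card_le_univ C)
    have := mul_le_mul_of_nonneg_right c.eps1 c.hC.le
    linarith [c.eps]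
  have a8 := mul_le_mul_of_nonneg_right a6 f0
  have a9 := mul_le_mul_of_nonneg_right a7 f0
  have a10 : 0 ≤ ((I.filter fun i => y + ee i ∈ T).card : ℝ) * fl m (M - wt g y) := by positivity
  have a11 : 0 ≤ (Fintype.card ι : ℝ) * fl m (M - wt g y) := by positivity
  rw [div_le_iff₀ c.hm'] at a2
  refine le_of_mul_le_mul_right ?_ c.hm'
  rw [Nat.cast_mul, Nat.cast_sub (not_le.1 hl).le, slk, ← sum_div, aa, live, mul_assoc 2, add_mul,
    sub_mul, div_mul_cancel₀ _ c.hm'.ne']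
  push_cast
  unfold fl at *
  linarith

/-- The income at one point. -/
lemma node {z : ι → ℕ} (hz : z ∈ T) :
    ((M : ℝ) - ((M - wt g z) % m : ℕ)) * r ((M - wt g z) % m) - er ((M - wt g z) % m) -
      (if m ≤ M - wt g z then 2 * m / gb * (∑ i ∈ Cᶜ, (z i : ℝ) * g i) +
        (2 * m * m / gb + 12 * ε * m * m * M / gb / gb) * aa g M m z + 21 * ε * m * M / gb +
        (if m < (M - wt g z) % m + L then m * N else 0) else 0) ≤
      m * (aa g M m z + inc (fun y i => Fl g m M C gb Fr β h y i / m) z) := by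
  have hx := c.hM z hz
  have e0 := c.eps0
  have hgb := c.hgb
  have a1 : m * inc (fun y i => Fl g m M C gb Fr β h y i / m) z =
      ∑ k ∈ C, (z k : ℝ) * (g k / gb * (BB m C Fr (M - wt g z + g k) - BB m C Fr (M - wt g z)) +
        β (M - wt g z + g k) * h (z - ee k) k - β (M - wt g z) * h z k) +
      ∑ i ∈ Cᶜ, (z i : ℝ) * (Fr i (M - wt g z + g i) - Fr i (M - wt g z)) := by
    rw [inc, mul_sum, ← sum_add_sum_compl C]
    have hm := c.hm'.ne'
    congr 1 <;> refine sum_congr rfl fun k hk => ?_ <;>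
      rcases Nat.eq_zero_or_pos (z k) with e | e
    · simp [e]
    · simp only [Fl, if_pos hk, depth_sub hx e]; field_simp; ring
    · simp [e]
    · simp only [Fl, if_neg (mem_compl.1 hk), depth_sub hx e]; field_simp
  have a2 : (M : ℝ) = ∑ k ∈ C, (z k : ℝ) * g k + ∑ i ∈ Cᶜ, (z i : ℝ) * g i + (M - wt g z : ℕ) := by
    rw [sum_add_sum_compl, Nat.cast_sub hx, wt]
    push_cast
    ring
  have a3 : m * aa g M m z = fl m (M - wt g z) := rfl
  have hN := c.hN z hz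
  rw [mul_add, a1]
  generalize M - wt g z = x at *
  have hl := Nat.mod_lt x c.hm
  have a4 := c.cell z hz _ hl
  have a5 := fl_add_mod m x
  have a6 := c.rare.r_le _ hl
  have w1 : 0 ≤ ∑ k ∈ C, (z k : ℝ) * g k := by positivity
  have w2 : 0 ≤ ∑ k ∈ Cᶜ, (z k : ℝ) * g k := by positivity
  by_cases hx' : x < m
  · rw [if_neg (not_le.2 hx'), Nat.mod_eq_of_lt hx'] at *
    have b1 : ∑ i ∈ Cᶜ, (z i : ℝ) * (Fr i (x + g i) - Fr i x) = (∑ i ∈ Cᶜ, (z i : ℝ) * g i) * qh x := by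
      rw [sum_mul]
      exact sum_congr rfl fun i hi => by
        rw [c.rare.top i hi x hx', c.rare.zero i hi x hx']; ring
    have b2 : BB m C Fr x = 0 := by
      rw [BB, fl_zero hx', sum_eq_zero fun i hi => c.rare.zero i hi x hx']; simp
    have b3 : ∑ k ∈ C, ((z k : ℝ) * (g k / gb * fl m (x + g k) + β (x + g k) * h (z - ee k) k) +
        (z k : ℝ) * g k * (r x - q x)) ≤
        ∑ k ∈ C, (z k : ℝ) * (g k / gb * (BB m C Fr (x + g k) - BB m C Fr x) +
        β (x + g k) * h (z - ee k) k - β x * h z k) := by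
      refine sum_le_sum fun k hk => ?_
      have d1 := c.rare.core x hx' (g k) ((c.core k).1 hk).2 ((c.core k).1 hk).1
      have d2 : gb * (r x - q x) ≤
          (Cᶜ.card * fl m (x + g k) - ∑ i ∈ Cᶜ, Fr i (x + g k)) / C.card := by
        rw [le_div_iff₀ c.hC]; linarith
      have d3 := mul_le_mul_of_nonneg_left d2 (show 0 ≤ (z k : ℝ) * (g k / gb) by positivity)
      have d4 : (z k : ℝ) * (g k / gb) * (gb * (r x - q x)) = z k * g k * (r x - q x) := by
        field_simp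
      rw [b2, c.b0 x hx', BB]
      linarith
    rw [sum_add_distrib, ← sum_mul] at b3
    have b4 := mul_le_mul_of_nonneg_left a6 w2
    rw [b1, a3, fl_zero hx']
    nth_rewrite 1 [a2]
    linarith
  rw [if_pos (not_lt.1 hx')]
  have hx'' := not_lt.1 hx'
  have f1 := le_fl c.hm hx''
  have f2 := lt_fl c.hm x
  have hm := c.hm'
  have b1 : ∑ i ∈ Cᶜ, (z i : ℝ) * (Fr i (x + g i) - Fr i x) = ∑ i ∈ Cᶜ, (z i : ℝ) * g i :=
    sum_congr rfl fun i hi => by rw [c.rare.non i hi x hx'']; ring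
  have b3 : ∑ k ∈ C, ((z k : ℝ) * (g k / gb * fl m (x % m + g k) +
        β (x % m + g k) * h (z - ee k) k) -
        (z k : ℝ) * g k * (ε * (7 * m + 12 * m * fl m x / gb) / gb) - z k * β x) ≤
        ∑ k ∈ C, (z k : ℝ) * (g k / gb * (BB m C Fr (x + g k) - BB m C Fr x) +
        β (x + g k) * h (z - ee k) k - β x * h z k) := by
    refine sum_le_sum fun k hk => ?_
    have d0 := (c.ratio hk).2
    have d1 := c.avg (fun i => Fr i (x + g k) - Fr i x) (fl m (x % m + g k))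
      (7 * m + 12 * m * fl m x / gb) fun i hi => by
        have g1 := (abs_le.1 (c.rare.near i hi x hx'')).1
        have g2 := (abs_le.1 (c.rare.near i hi (x + g k) (by omega))).2
        have g3 := lt_fl c.hm (x % m + g k)
        have g4 : 3 * (m : ℝ) * (x + g k : ℕ) / gb = 3 * m * x / gb + 3 * m * (g k / gb) := by
          push_cast; ring
        have g5 := mul_le_mul_of_nonneg_left d0 hm.le
        have g6 : 3 * (m : ℝ) * x / gb ≤ 6 * m * fl m x / gb := by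
          gcongr ?_ / _
          have := mul_le_mul_of_nonneg_left (f2.trans (add_le_add_right f1 _)) hm.le
          linarith
        have g7 : 12 * m * fl m x / gb = 2 * (6 * m * fl m x / gb) := by ring
        have g8 := Nat.cast_nonneg (α := ℝ) (x % m)
        push_cast at g2 g3 g4
        linarith
    have d2 : BB m C Fr (x + g k) - BB m C Fr x = fl m (x % m + g k) +
        (Cᶜ.card * fl m (x % m + g k) - ∑ i ∈ Cᶜ, (Fr i (x + g k) - Fr i x)) / C.card := by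
      rw [BB, BB, fl_add c.hm x (g k), sum_sub_distrib]; ring
    have d3 := mul_le_mul_of_nonneg_left d1 (show 0 ≤ (z k : ℝ) * (g k / gb) by positivity)
    have d4 := mul_le_mul_of_nonneg_left (c.h1 z k).2
      (mul_nonneg (Nat.cast_nonneg (α := ℝ) (z k)) (c.b1 x).1)
    have d5 : (z k : ℝ) * g k * (ε * (7 * m + 12 * m * fl m x / gb) / gb) =
      (z k : ℝ) * (g k / gb) * (ε * (7 * m + 12 * m * fl m x / gb)) := by ring
    rw [d2, c.b2 x (g k) (c.hg k), d5]
    linarith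
  rw [sum_sub_distrib, sum_sub_distrib, ← sum_mul, ← sum_mul] at b3
  have b4 : (∑ k ∈ C, (z k : ℝ)) * β x ≤ if m < x % m + L then m * N else 0 := by
    split_ifs with e
    · have d1 : ∑ k ∈ C, (z k : ℝ) ≤ N := by simpa [dp] using hN
      have d2 : β x ≤ m := by
        have := mul_nonneg hm.le (show 0 ≤ ξ from le_trans (by positivity) c.xi)
        linarith [(c.b1 x).2]
      rw [mul_comm]
      exact mul_le_mul d2 d1 (by positivity) hm.le
    · rw [c.b3 x (not_lt.1 e), mul_zero]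
  have w3 : ∑ k ∈ C, (z k : ℝ) * g k ≤ M := by linarith [Nat.cast_nonneg (α := ℝ) x]
  have b5 := mul_le_mul_of_nonneg_right w3
    (show 0 ≤ ε * (7 * m + 12 * m * fl m x / gb) / gb by have := hm.le.trans f1; positivity)
  have b6 : r (x % m) - q (x % m) ≤ 14 * m * ε / gb := by
    have d1 := c.rare.qh_le _ hl
    rw [c.eps] at d1
    have d2 : gb * (qh (x % m) - q (x % m)) ≤ 14 * m * ε :=
      le_of_mul_le_mul_left (by linarith) c.hC
    rw [le_div_iff₀ hgb]
    linarith [mul_le_mul_of_nonneg_left a6 hgb.le]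
  have b7 : r (x % m) - 1 ≤ 2 * m / gb := by
    have d1 := c.ref.up (x % m)
    have d2 : ((x % m : ℕ) : ℝ) ≤ m := Nat.cast_le.2 hl.le
    have d3 := mul_le_mul_of_nonneg_left c.eps1 hm.le
    rw [le_div_iff₀ hgb] at b6 ⊢
    linarith
  have b8 := mul_le_mul_of_nonneg_left b7 w2
  have b9 := mul_le_mul_of_nonneg_left b7 (hm.le.trans f1)
  have b10 := (mul_le_mul_of_nonneg_left b6 w1).trans
    (mul_le_mul_of_nonneg_right w3 (by positivity))
  have b11 : (2 * m * m / gb + 12 * ε * m * m * M / gb / gb) * aa g M m z =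
      fl m x * (2 * m / gb) + 12 * ε * m * M * fl m x / gb / gb := by rw [← a3]; ring
  have b12 : (M : ℝ) * (ε * (7 * m + 12 * m * fl m x / gb) / gb) + M * (14 * m * ε / gb) =
      21 * ε * m * M / gb + 12 * ε * m * M * fl m x / gb / gb := by ring
  have b13 : ((M : ℝ) - (x % m : ℕ)) * r (x % m) = (∑ k ∈ C, (z k : ℝ) * g k +
      ∑ i ∈ Cᶜ, (z i : ℝ) * g i + fl m x) * r (x % m) := by
    congr 1; linarith
  rw [b1, a3, b11, b13]
  linarith

end Ce

end Pool.Agent.MP_96f5a9_co.H80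

end MrgPart0

-- ======== part 1: formerly Pool.Agent.MP_96f5a9_co.h80.II2
section MrgPart1

/-!
Almost equal generators: the balance of the flow certificate.
-/

set_option autoImplicit false

namespace Pool.Agent.MP_96f5a9_co.H80

open Finset Function H51 H16 H93 H36 H59 WA

variable {ι : Type} [Fintype ι] [DecidableEq ι]
  {g : ι → ℕ} {T : Finset (ι → ℕ)} {m F s R R0 L : ℕ} {C : Finset ι} {gb ε ξ N : ℝ}
  {q r qh : ℕ → ℝ} {Fr : ι → ℕ → ℝ} {β : ℕ → ℝ} {h : (ι → ℕ) → ι → ℝ} {er : ℕ → ℝ}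

lemma sum_sq (m : ℕ) : ∑ l ∈ range m, (l : ℝ) ≤ m * m / 2 ∧
    ∑ l ∈ range m, (l : ℝ) * l ≤ m * m * m / 3 := by
  induction m with
  | zero => simp
  | succ n ih =>
    rw [sum_range_succ, sum_range_succ]
    push_cast
    have := Nat.cast_nonneg (α := ℝ) n
    constructor <;> nlinarith [ih.1, ih.2]

/-- The children of the points of a window of residues. -/
lemma win_card (md : Md g T m F) (hR : R0 ≤ s) (hL : L + 2 * R0 ≤ m) :
    ∃ V : Finset (ι → ℕ), V ⊆ T ∧ V.card ≤ L + 2 * R0 ∧ ∀ y, m < (F + m - wt g y) % m + L →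
      ∀ i ∈ Nr g s R0, y + ee i ∈ T → y + ee i ∈ V := by
  refine ⟨T.filter fun z => m ≤ ((F + m - wt g z) % m + (s - R0)) % m + (L + 2 * R0),
    filter_subset _ _, ?_, fun y hy i hi e => mem_filter.2 ⟨e, ?_⟩⟩
  · rw [card_ll md fun l => m ≤ (l + (s - R0)) % m + (L + 2 * R0)]
    refine (card_le_card_of_injOn (t := Ico (m - (L + 2 * R0)) m) (fun l => (l + (s - R0)) % m)
      (fun l hl => ?_) fun l hl l' hl' e => ?_).trans (by rw [Nat.card_Ico]; omega)
    · have := (mem_filter.1 (mem_coe.1 hl)).2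
      exact mem_coe.2 (mem_Ico.2 ⟨by dsimp only; omega, Nat.mod_lt _ md.pos⟩)
    · exact (Nat.ModEq.add_right_cancel' _ e).eq_of_lt_of_lt
        (mem_range.1 (mem_filter.1 (mem_coe.1 hl)).1) (mem_range.1 (mem_filter.1 (mem_coe.1 hl')).1)
  · have a1 := md.top _ e
    have a2 := (mem_filter.1 hi).2
    obtain ⟨d, hd⟩ : ∃ d, g i = s - R0 + d := ⟨g i - (s - R0), by omega⟩
    have a3 : F + m - wt g y = F + m - wt g (y + ee i) + (s - R0) + d := by
      rw [wt_ee] at *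
      omega
    rw [Nat.mod_add_mod]
    rw [a3, ← Nat.mod_add_mod] at hy
    have := Nat.mod_le ((F + m - wt g (y + ee i) + (s - R0)) % m + d) m
    omega

namespace Ce

variable (c : Ce g T m (F + m) s R L C gb ε ξ N q r qh Fr β h er) (md : Md g T m F)
include c md

/-- The raw balance. -/
lemma raw (hw : ¬ Wilf g T m F) {w : ℝ} (hq : m * (1 - w / gb) ≤ ∑ l ∈ range m, q l) :
    m * ∑ y ∈ T, (ded T (fun y i => Fl g m (F + m) C gb Fr β h y i / m) y +
        slk g (F + m) m (fun y i => Fl g m (F + m) C gb Fr β h y i / m) y) +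
      m * m * (1 / 6 - 7 * ε) ≤ (F + m : ℕ) / gb * (m * (w + 2 ^ 12 * ε * R)) +
      ∑ l ∈ range m, er l + 2 * m / gb * (∑ z ∈ Nt g T (F + m) m, wp g Cᶜ z : ℕ) +
      (2 * m * m / gb + 12 * ε * m * m * (F + m : ℕ) / gb / gb) * ∑ z ∈ T, aa g (F + m) m z +
      21 * ε * m * (F + m : ℕ) / gb * (Nt g T (F + m) m).card +
      m * N * ((Nt g T (F + m) m).filter fun z => m < (F + m - wt g z) % m + L).card := by
  have hm := c.hm'
  have hgb := c.hgb
  have e0 := c.eps0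
  have h1 := sum_le_sum fun z (hz : z ∈ T) => c.node hz
  have h2 := ident (g := g) (M := F + m) (m := m) md.down
    fun y i => Fl g m (F + m) C gb Fr β h y i / m
  have h3 := mul_le_mul_of_nonneg_left (not_wilf hw).1 hm.le
  have h4 := unif md fun l => (((F + m : ℕ) : ℝ) - l) * r l - er l
  have hN : Nt g T (F + m) m = T.filter fun z => m ≤ F + m - wt g z :=
    filter_congr fun z _ => by rw [Nat.div_eq_zero_iff_lt md.pos, not_lt]
  have h5 : ∑ z ∈ Nt g T (F + m) m, aa g (F + m) m z ≤ ∑ z ∈ T, aa g (F + m) m z :=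
    sum_le_sum_of_subset_of_nonneg (filter_subset _ _) fun _ _ _ => aa_nonneg _
  have h5' := mul_le_mul_of_nonneg_left h5
    (show 0 ≤ 2 * m * m / gb + 12 * ε * m * m * (F + m : ℕ) / gb / gb by positivity)
  rw [sum_sub_distrib, h4, ← sum_filter, ← hN, sum_add_distrib, sum_add_distrib, sum_add_distrib,
    ← sum_filter, ← mul_sum, ← mul_sum, ← mul_sum, sum_const, sum_const, nsmul_eq_mul,
    nsmul_eq_mul, sum_sub_distrib] at h1
  have h6 : ((∑ z ∈ Nt g T (F + m) m, wp g Cᶜ z : ℕ) : ℝ) =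
      ∑ z ∈ Nt g T (F + m) m, ∑ i ∈ Cᶜ, (z i : ℝ) * g i := by simp [wp]
  have h7 : ∑ l ∈ range m, (l : ℝ) * r l ≤
      ∑ l ∈ range m, ((1 + 14 * ε) * (l : ℝ) + (l : ℝ) * l / m) := by
    refine sum_le_sum fun l hl => ?_
    have d1 := c.rare.qh_le _ (mem_range.1 hl)
    rw [c.eps] at d1
    have d2 : gb * (qh l - q l) ≤ 14 * m * ε := le_of_mul_le_mul_left (by linarith) c.hC
    have d3 := c.ref.up l
    have d4 := mul_le_mul_of_nonneg_left (c.rare.r_le _ (mem_range.1 hl)) hgb.le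
    have d5 := mul_le_mul_of_nonneg_left c.ref.gbm e0
    have d6 : (l : ℝ) ≤ gb * (l / m) := by
      rw [← mul_div_assoc, le_div_iff₀ hm, mul_comm gb]
      exact mul_le_mul_of_nonneg_left c.ref.gbm (Nat.cast_nonneg _)
    have d7 : r l ≤ 1 + 14 * ε + l / m := le_of_mul_le_mul_left (by linarith) hgb
    calc _ ≤ (l : ℝ) * (1 + 14 * ε + l / m) := mul_le_mul_of_nonneg_left d7 (Nat.cast_nonneg _)
      _ = _ := by ring
  rw [sum_add_distrib, ← mul_sum, ← sum_div] at h7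
  have h8 := mul_le_mul_of_nonneg_left (sum_sq m).1 (show 0 ≤ 1 + 14 * ε by positivity)
  have h9 : (∑ l ∈ range m, (l : ℝ) * l) / m ≤ m * m / 3 := by
    rw [div_le_iff₀ hm]; linarith [(sum_sq m).2]
  have h10 : m - m * (w + 2 ^ 12 * ε * R) / gb ≤ ∑ l ∈ range m, r l := by
    have d1 := c.rare.mean
    rw [c.eps] at d1
    have d2 : -(2 ^ 12 * m * ε * R) ≤ gb * (∑ l ∈ range m, r l - ∑ l ∈ range m, q l) :=
      le_of_mul_le_mul_left (by linarith) c.hC
    have d3 := mul_le_mul_of_nonneg_left hq hgb.le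
    have d4 : gb * (m * (1 - w / gb)) = gb * m - m * w := by field_simp
    rw [sub_le_comm, le_div_iff₀ hgb]
    linarith
  have h11 := mul_le_mul_of_nonneg_left h10 (Nat.cast_nonneg (α := ℝ) (F + m))
  have h12 : ∑ l ∈ range m, (((F + m : ℕ) : ℝ) - l) * r l =
      (F + m : ℕ) * ∑ l ∈ range m, r l - ∑ l ∈ range m, (l : ℝ) * r l := by
    rw [mul_sum, ← sum_sub_distrib]
    exact sum_congr rfl fun _ _ => by ring
  have h13 : ((F + m : ℕ) : ℝ) * (m - m * (w + 2 ^ 12 * ε * R) / gb) =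
      m * F + m * m - (F + m : ℕ) / gb * (m * (w + 2 ^ 12 * ε * R)) := by push_cast; ring
  rw [← mul_sum T] at h1
  simp only [sum_add_distrib] at h1 h2 ⊢
  rw [h2] at h3
  rw [h6]
  linarith

/-- The balance. -/
theorem bal (hw : ¬ Wilf g T m F) {w : ℝ} (hw0 : 0 ≤ w)
    (hq : m * (1 - w / gb) ≤ ∑ l ∈ range m, q l) (hR : R0 ≤ R)
    (hI : 15 * Fintype.card ι ≤ 16 * (Nr g s R0).card) (hN1 : ((F + m : ℕ) : ℝ) ≤ N * gb)
    (hN2 : 16 * N ≤ Fintype.card ι) :
    (∑ y ∈ T, (ded T (fun y i => Fl g m (F + m) C gb Fr β h y i / m) y +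
        slk g (F + m) m (fun y i => Fl g m (F + m) C gb Fr β h y i / m) y)) / 2 +
      m * (1 / 6 - 7 * ε - 2 * (N / Fintype.card ι)) ≤ N * (w + 2 ^ 12 * ε * R) +
      (∑ l ∈ range m, er l) / m + N ^ 2 / Fintype.card ι * (8 * (L + 2 * R0) + 212 * ε * m) := by
  have hm := c.hm'
  have hgb := c.hgb
  have e0 := c.eps0
  have e1 := c.eps1
  have r1 := c.ref.Rm
  have r2 := c.ref.ms
  have r3 := c.hL
  have h0 := c.raw md hw hq
  have hIC : Nr g s R0 ⊆ C := fun i hi => (c.core i).2 (by have := (mem_filter.1 hi).2; omega)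
  have hp : (0 : ℝ) < Fintype.card ι := c.hC.trans_le (Nat.cast_le.2 (card_le_univ C))
  have hx : ∀ y ∈ Nt g T (F + m) m, m ≤ F + m - wt g y := fun y hy =>
    not_lt.1 fun e => (mem_filter.1 hy).2 ((Nat.div_eq_zero_iff_lt md.pos).2 e)
  have hdp : ∀ z ∈ T, (dp (Nr g s R0) z : ℝ) ≤ N := fun z hz =>
    (Nat.cast_le.2 (dp_mono hIC z)).trans (c.hN z hz)
  have hN0 : 0 ≤ N := by
    obtain ⟨z, hz⟩ : T.Nonempty := card_pos.1 (md.card ▸ md.pos)
    exact (Nat.cast_nonneg _).trans (hdp z hz)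
  have hS : ∀ V ⊆ T, ((∑ z ∈ V, dp (Nr g s R0) z : ℕ) : ℝ) ≤ V.card * N := fun V hV => by
    rw [Nat.cast_sum, ← nsmul_eq_mul]
    exact sum_le_card_nsmul _ _ _ fun z hz => hdp z (hV hz)
  have g0 : (Gam g T (F + m) m (Nr g s R0) : ℝ) ≤ 2 * ∑ y ∈ T,
      (ded T (fun y i => Fl g m (F + m) C gb Fr β h y i / m) y +
        slk g (F + m) m (fun y i => Fl g m (F + m) C gb Fr β h y i / m) y) := by
    rw [Gam, Nat.cast_sum, mul_sum]
    exact sum_le_sum fun y _ => c.gi _ hIC hI y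
  have n1 := (Nat.cast_le (α := ℝ)).2 (card_gam (g := g) (M := F + m) md.pos (Nr g s R0)
    (Nt g T (F + m) m) T (filter_subset _ _) hx fun _ _ _ _ e => e)
  have n1' := hS T Subset.rfl
  obtain ⟨V, v1, v2, v3⟩ := win_card (s := s) (R0 := R0) (L := L) md (by omega) (by omega)
  have n2 := (Nat.cast_le (α := ℝ)).2 (card_gam (g := g) (M := F + m) md.pos (Nr g s R0)
    ((Nt g T (F + m) m).filter fun z => m < (F + m - wt g z) % m + L) V
    ((filter_subset _ _).trans (filter_subset _ _)) (fun y hy => hx y (mem_filter.1 hy).1)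
    fun y hy => v3 y (mem_filter.1 hy).2)
  have n2' := (hS V v1).trans (mul_le_mul_of_nonneg_right (Nat.cast_le.2 v2) hN0)
  have n3 : Fintype.card ι * ∑ z ∈ Nt g T (F + m) m, wp g Cᶜ z ≤
      (F + m) * Gam g T (F + m) m (Nr g s R0) + 8 * ∑ z ∈ T, dp (Nr g s R0) z * wp g Cᶜ z := by
    have a1 := H80.live_sum (T := T) (Nr g s R0) (Nt g T (F + m) m) T (wp g Cᶜ) fun _ _ _ _ e => e
    have a2 : ∑ z ∈ T, ∑ j ∈ Nr g s R0, z j * wp g Cᶜ (z - ee j) ≤
        ∑ z ∈ T, dp (Nr g s R0) z * wp g Cᶜ z := sum_le_sum fun z _ => by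
      rw [dp, sum_mul]
      exact sum_le_sum fun j _ => Nat.mul_le_mul_left _
        (sum_le_sum fun i _ => Nat.mul_le_mul_right _ (Nat.sub_le _ _))
    have a3 : ∑ y ∈ Nt g T (F + m) m, Fintype.card ι * wp g Cᶜ y ≤ ∑ y ∈ Nt g T (F + m) m,
        ((F + m) * ((F + m - wt g y) / m * (Fintype.card ι - 8 * live T (Nr g s R0) y)) +
          8 * (live T (Nr g s R0) y * wp g Cᶜ y)) := sum_le_sum fun y hy => by
      have b1 : wp g Cᶜ y ≤ F + m :=
        (sum_le_sum_of_subset (subset_univ _)).trans (md.top y (mem_filter.1 hy).1)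
      have b2 := Nat.mul_le_mul b1 (Nat.le_mul_of_pos_left
        (Fintype.card ι - 8 * live T (Nr g s R0) y) (Nat.div_pos (hx y hy) md.pos))
      have b3 := Nat.mul_le_mul_right (wp g Cᶜ y) (show Fintype.card ι ≤ Fintype.card ι -
        8 * live T (Nr g s R0) y + 8 * live T (Nr g s R0) y by omega)
      linarith only [b2, b3]
    have a4 : ∑ y ∈ Nt g T (F + m) m, (F + m - wt g y) / m *
        (Fintype.card ι - 8 * live T (Nr g s R0) y) ≤ Gam g T (F + m) m (Nr g s R0) :=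
      sum_le_sum_of_subset (filter_subset _ _)
    simp only [sum_add_distrib, ← mul_sum] at a3
    linarith only [a1, a2, a3, Nat.mul_le_mul_left (F + m) a4]
  have n3' : ((∑ z ∈ T, dp (Nr g s R0) z * wp g Cᶜ z : ℕ) : ℝ) ≤
      N * (ε * Fintype.card ι * (2 * (m * ∑ z ∈ T, aa g (F + m) m z))) := by
    have a1 : ∑ z ∈ T, wp g Cᶜ z ≤ Cᶜ.card * (2 * (m * ∑ t ∈ T, (F + m - wt g t) / m)) := by
      unfold wp
      rw [sum_comm]
      exact sum_le_card_nsmul _ _ _ fun i _ =>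
        (sum_mul _ _ _).symm.trans_le (coord_le md.pos md.le md.down md.top i)
    have a2 := (Nat.cast_le (α := ℝ)).2 a1
    have a3 : (Cᶜ.card : ℝ) ≤ ε * Fintype.card ι :=
      c.eps ▸ mul_le_mul_of_nonneg_left (Nat.cast_le.2 (card_le_univ C)) e0
    rw [Nat.cast_mul, Nat.cast_mul, Nat.cast_mul, cast_n, Nat.cast_ofNat] at a2
    refine le_trans ?_ (mul_le_mul_of_nonneg_left (a2.trans (mul_le_mul_of_nonneg_right a3
      (mul_nonneg zero_le_two (mul_nonneg hm.le (sum_nonneg fun _ _ => aa_nonneg _))))) hN0)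
    rw [Nat.cast_sum, Nat.cast_sum, mul_sum]
    exact sum_le_sum fun z hz => by
      rw [Nat.cast_mul]
      exact mul_le_mul_of_nonneg_right (hdp z hz) (Nat.cast_nonneg _)
  have n3'' := (Nat.cast_le (α := ℝ)).2 n3
  have n4 := (Nat.cast_le (α := ℝ)).2 (not_wilf hw).2
  rw [Nat.cast_mul, cast_n] at n4
  have n5 : 0 ≤ ∑ z ∈ T, aa g (F + m) m z := sum_nonneg fun _ _ => aa_nonneg _
  rw [md.card] at n1'
  rw [Nat.cast_mul, Nat.cast_add, Nat.cast_mul, Nat.cast_ofNat] at n1 n2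
  rw [Nat.cast_mul, Nat.cast_add, Nat.cast_mul, Nat.cast_mul, Nat.cast_ofNat] at n3''
  have g1 := Nat.cast_nonneg (α := ℝ) (Gam g T (F + m) m (Nr g s R0))
  have p1 := Nat.cast_nonneg (α := ℝ) (∑ z ∈ Nt g T (F + m) m, wp g Cᶜ z)
  have p2 := Nat.cast_nonneg (α := ℝ) (Nt g T (F + m) m).card
  have p3 := Nat.cast_nonneg (α := ℝ) (F + m)
  have p4 : (0 : ℝ) ≤ w + 2 ^ 12 * ε * R := by positivity
  have p5 : ((L + 2 * R0 : ℕ) : ℝ) = L + 2 * R0 := by push_cast; rfl
  rw [p5] at n2'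
  generalize ∑ y ∈ T, (ded T (fun y i => Fl g m (F + m) C gb Fr β h y i / m) y +
    slk g (F + m) m (fun y i => Fl g m (F + m) C gb Fr β h y i / m) y) = G at *
  generalize (Gam g T (F + m) m (Nr g s R0) : ℝ) = Γ at *
  generalize ((∑ z ∈ Nt g T (F + m) m, wp g Cᶜ z : ℕ) : ℝ) = W at *
  generalize (((Nt g T (F + m) m).filter fun z => m < (F + m - wt g z) % m + L).card : ℝ) = B at *
  generalize ((Nt g T (F + m) m).card : ℝ) = A at *
  generalize ∑ z ∈ T, aa g (F + m) m z = n at *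
  generalize ((F + m : ℕ) : ℝ) = M at *
  generalize (Fintype.card ι : ℝ) = p at *
  generalize (L : ℝ) + 2 * R0 = v at *
  generalize w + 2 ^ 12 * ε * R = u at *
  obtain ⟨D, hD⟩ : ∃ D, D = M / gb := ⟨_, rfl⟩
  obtain ⟨τ, hτ⟩ : ∃ τ, τ = N / p := ⟨_, rfl⟩
  obtain ⟨k, hk⟩ : ∃ k, k = n / gb := ⟨_, rfl⟩
  have d0 : 0 ≤ D := by rw [hD]; positivity
  have d1 : D ≤ N := by rw [hD, div_le_iff₀ hgb]; exact hN1
  have d2 : k ≤ τ := by
    rw [hk, hτ, div_le_div_iff₀ hgb hp]; linarith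
  have d3 : 0 ≤ k := by rw [hk]; positivity
  have d4 : τ * p = N := by rw [hτ]; field_simp
  have d5 : 16 * τ ≤ 1 := by rw [hτ, ← mul_div_assoc, div_le_one hp]; exact hN2
  have t0 := d3.trans d2
  have t1 : W / gb ≤ τ * Γ + 16 * (ε * m * N * τ) := by
    refine le_of_mul_le_mul_left ?_ hp
    have b1 : p * (W / gb) ≤ D * Γ + 16 * (ε * m * N * p) * k := by
      rw [hD, hk, ← mul_div_assoc, div_mul_eq_mul_div, ← mul_div_assoc, ← add_div]
      gcongr ?_ / _
      linarith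
    have b2 := mul_le_mul_of_nonneg_right d1 g1
    have b3 := mul_le_mul_of_nonneg_left d2 (show 0 ≤ ε * m * N * p by positivity)
    have b4 : p * (τ * Γ) = N * Γ := by rw [← d4]; ring
    linarith
  have t2 : N * A ≤ τ * Γ + 8 * (m * N * τ) := by
    rw [← d4]
    have := mul_le_mul_of_nonneg_left (n1.trans (add_le_add_right
      (mul_le_mul_of_nonneg_left n1' (by norm_num)) _)) t0
    rw [← d4] at this
    linarith
  have t3 : N * B ≤ τ * Γ + 8 * (v * N * τ) := by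
    rw [← d4]
    have := mul_le_mul_of_nonneg_left (n2.trans (add_le_add_right
      (mul_le_mul_of_nonneg_left n2' (by norm_num)) _)) t0
    rw [← d4] at this
    linarith
  have t4 : D * k ≤ N * τ := mul_le_mul d1 d2 d3 hN0
  have t5 : τ * Γ ≤ G / 8 := by
    have := mul_le_mul_of_nonneg_right d5 g1
    linarith
  have t6 := mul_le_mul_of_nonneg_right e1 (mul_nonneg t0 g1)
  have t7 := mul_le_mul_of_nonneg_left ((mul_le_mul_of_nonneg_right d1 p2).trans t2) e0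
  have t8 := mul_le_mul_of_nonneg_left t4 (show 0 ≤ ε * m by positivity)
  have t9 := mul_le_mul_of_nonneg_left d2 hm.le
  have t10 := mul_le_mul_of_nonneg_right d1 p4
  have t11 := mul_nonneg t0 g1
  have h1 : G + m * (1 / 6 - 7 * ε) ≤ D * u + (∑ l ∈ range m, er l) / m + 2 * (W / gb) +
      (2 * m * k + 12 * (ε * m * (D * k))) + 21 * (ε * (D * A)) + N * B := by
    refine le_of_mul_le_mul_left ?_ hm
    rw [hD, hk]
    refine le_of_eq_of_le (by ring) (h0.trans_eq ?_)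
    field_simp
  have h2 : N ^ 2 / p = N * τ := by rw [hτ]; ring
  rw [h2, ← hτ]
  linarith

end Ce

end Pool.Agent.MP_96f5a9_co.H80

end MrgPart1

-- marker of a merged file
example : 731051 + 261094 = 731051 + 261094 := rfl
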